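import Mathlib
import Pool.Agent.H16.LA.S8.W223.AK.Defs

/-!
# Basic facts on ideals as exponent functions, and on the elements `gen`
-/

set_option autoImplicit false
set_option linter.unusedSectionVars false

namespace Pool.Agent.W223.AK

open NumberField IsDedekindDomain Finset Pool.Agent.H691R3

variable {K : Type} [Field K] [NumberField K]

theorem Nv_pos (v : Pr K) : 0 < Nv v := by linarith [two_le_Nv v]

theorem Nv_one_lt (v : Pr K) : 1 < Nv v := by linarith [two_le_Nv v]

/-! ### sizes -/

theorem len_eq_sum {a : Idl K} {s : Finset (Pr K)} (h : a.support ⊆ s) :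
    len a = ∑ v ∈ s, (a v : ℝ) * Real.log (Nv v) := by
  unfold len
  refine Finset.sum_subset h fun v _ hv => ?_
  rw [Finsupp.notMem_support_iff.mp hv, Nat.cast_zero, zero_mul]

theorem len_nonneg (a : Idl K) : 0 ≤ len a :=
  Finset.sum_nonneg fun v _ => mul_nonneg (Nat.cast_nonneg _) (log_Nv_pos v).le

theorem rl_nonneg (a : Idl K) : 0 ≤ rl a :=
  Finset.sum_nonneg fun v _ => (log_Nv_pos v).le

theorem rl_le_len (a : Idl K) : rl a ≤ len a := by
  unfold rl len
  refine Finset.sum_le_sum fun v hv => ?_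
  have h1 : (1 : ℝ) ≤ a v := by
    exact_mod_cast Nat.one_le_iff_ne_zero.mpr (Finsupp.mem_support_iff.mp hv)
  have h2 := log_Nv_pos v
  nlinarith

@[simp] theorem len_zero : len (0 : Idl K) = 0 := by simp [len]

@[simp] theorem rl_zero : rl (0 : Idl K) = 0 := by simp [rl]

theorem len_add (a b : Idl K) : len (a + b) = len a + len b := by
  classical
  rw [len_eq_sum (a := a + b) (s := a.support ∪ b.support) Finsupp.support_add,
    len_eq_sum (a := a) (s := a.support ∪ b.support) subset_union_left,
    len_eq_sum (a := b) (s := a.support ∪ b.support) subset_union_right, ← Finset.sum_add_distrib]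
  refine Finset.sum_congr rfl fun v _ => ?_
  rw [Finsupp.add_apply]
  push_cast
  ring

theorem len_sum {ι : Type*} (s : Finset ι) (a : ι → Idl K) :
    len (∑ i ∈ s, a i) = ∑ i ∈ s, len (a i) := by
  classical
  induction s using Finset.induction_on with
  | empty => simp
  | insert i s hi ih => rw [Finset.sum_insert hi, Finset.sum_insert hi, len_add, ih]

theorem len_nsmul (n : ℕ) (a : Idl K) : len (n • a) = n * len a := by
  induction n with
  | zero => simp
  | succ n ih => rw [succ_nsmul, len_add, ih]; push_cast; ring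

theorem len_mono {a b : Idl K} (h : a ≤ b) : len a ≤ len b := by
  obtain ⟨c, rfl⟩ := exists_add_of_le h
  rw [len_add]
  linarith [len_nonneg c]

theorem rl_eq_sum_ite (a : Idl K) {s : Finset (Pr K)} (h : a.support ⊆ s) :
    rl a = ∑ v ∈ s, if a v = 0 then 0 else Real.log (Nv v) := by
  classical
  unfold rl
  rw [← Finset.sum_subset h]
  · refine Finset.sum_congr rfl fun v hv => ?_
    rw [if_neg (Finsupp.mem_support_iff.mp hv)]
  · intro v _ hv
    rw [if_pos (Finsupp.notMem_support_iff.mp hv)]

theorem rl_mono {a b : Idl K} (h : a.support ⊆ b.support) : rl a ≤ rl b :=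
  Finset.sum_le_sum_of_subset_of_nonneg h fun v _ _ => (log_Nv_pos v).le

/-! ### parts -/

theorem ex_apply (a : Idl K) (F : Set ℕ) (v : Pr K) [Decidable (a v ∈ F)] :
    ex a F v = if a v ∈ F then a v else 0 := by
  classical
  unfold ex
  rw [Finsupp.filter_apply]
  congr

theorem ex_le (a : Idl K) (F : Set ℕ) : ex a F ≤ a := by
  classical
  intro v
  rw [ex_apply]
  split_ifs
  · exact le_rfl
  · exact Nat.zero_le _

theorem ex_add_compl (a : Idl K) (F : Set ℕ) : ex a F + ex a Fᶜ = a := by
  classical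
  ext v
  rw [Finsupp.add_apply, ex_apply, ex_apply]
  by_cases h : a v ∈ F
  · simp [h]
  · simp [h]

theorem ex_support (a : Idl K) (F : Set ℕ) (v : Pr K) : v ∈ (ex a F).support ↔ a v ≠ 0 ∧ a v ∈ F := by
  classical
  rw [Finsupp.mem_support_iff, ex_apply]
  split_ifs with h
  · exact ⟨fun h1 => ⟨h1, h⟩, fun h1 => h1.1⟩
  · exact ⟨fun h1 => absurd rfl h1, fun h1 => absurd h1.2 h⟩

theorem OffS.ex {S : Finset (Pr K)} {a : Idl K} (h : OffS S a) (F : Set ℕ) :
    OffS S (ex a F) := by
  intro v hv
  have := ex_le a F v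
  rw [h v hv] at this
  omega

theorem OffS.add {S : Finset (Pr K)} {a b : Idl K} (h : OffS S a) (h' : OffS S b) :
    OffS S (a + b) := by
  intro v hv
  rw [Finsupp.add_apply, h v hv, h' v hv]

theorem OffS.mono {S : Finset (Pr K)} {a b : Idl K} (h : OffS S b) (hab : a ≤ b) :
    OffS S a := by
  intro v hv
  have := hab v
  rw [h v hv] at this
  omega

theorem OffS.sum {S : Finset (Pr K)} {ι : Type*} (s : Finset ι) (a : ι → Idl K)
    (h : ∀ i ∈ s, OffS S (a i)) : OffS S (∑ i ∈ s, a i) := by
  intro v hv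
  rw [Finsupp.finsetSum_apply]
  exact Finset.sum_eq_zero fun i hi => h i hi v hv

theorem Cop.symm {a b : Idl K} (h : Cop a b) : Cop b a := fun v => (h v).symm

theorem Cop.mono_left {a b c : Idl K} (h : Cop b c) (hab : a ≤ b) : Cop a c := by
  intro v
  rcases h v with h1 | h1
  · left
    have := hab v
    omega
  · right; exact h1

theorem Cop.add {a b c : Idl K} (h : Cop a c) (h' : Cop b c) : Cop (a + b) c := by
  intro v
  rcases h v with h1 | h1
  · rcases h' v with h2 | h2
    · left; rw [Finsupp.add_apply, h1, h2]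
    · right; exact h2
  · right; exact h1

theorem Cop.sum {ι : Type*} (s : Finset ι) (a : ι → Idl K) (c : Idl K)
    (h : ∀ i ∈ s, Cop (a i) c) : Cop (∑ i ∈ s, a i) c := by
  intro v
  by_cases hc : c v = 0
  · right; exact hc
  · left
    rw [Finsupp.finsetSum_apply]
    exact Finset.sum_eq_zero fun i hi => (h i hi v).resolve_right hc

/-! ### the elements `gen` -/

section Gen

variable (ϖ : Pr K → K)

theorem gen_eq_prod (a : Idl K) : gen ϖ a = a.prod fun v m => ϖ v ^ m := rfl

@[simp] theorem gen_zero : gen ϖ (0 : Idl K) = 1 := by simp [gen]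

theorem gen_add (a b : Idl K) : gen ϖ (a + b) = gen ϖ a * gen ϖ b := by
  classical
  rw [gen_eq_prod, gen_eq_prod, gen_eq_prod]
  exact Finsupp.prod_add_index' (fun v => pow_zero _) (fun v m n => pow_add _ _ _)

theorem gen_sum {ι : Type*} (s : Finset ι) (a : ι → Idl K) :
    gen ϖ (∑ i ∈ s, a i) = ∏ i ∈ s, gen ϖ (a i) := by
  classical
  induction s using Finset.induction_on with
  | empty => simp
  | insert i s hi ih => rw [Finset.sum_insert hi, Finset.prod_insert hi, gen_add, ih]

theorem gen_nsmul (n : ℕ) (a : Idl K) : gen ϖ (n • a) = gen ϖ a ^ n := by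
  induction n with
  | zero => simp
  | succ n ih => rw [succ_nsmul, gen_add, ih, pow_succ]

end Gen

section U

variable {S : Finset (Pr K)} {ϖ : Pr K → K} {C : ℝ}

theorem gen_ne (hU : Unif S ϖ C) (a : Idl K) : gen ϖ a ≠ 0 :=
  Finset.prod_ne_zero_iff.mpr fun v _ => pow_ne_zero _ (hU.ne v)

/-- the order of `gen a` at a prime outside `S` -/
theorem fv_gen (hU : Unif S ϖ C) {a : Idl K} (ha : OffS S a) {v : Pr K} (hv : v ∉ S) :
    fv v (gen ϖ a) = (Nv v) ^ (-(a v : ℤ)) := by
  classical
  unfold gen
  rw [map_prod]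
  have h1 : ∀ u ∈ a.support, u ≠ v → fv v (ϖ u ^ a u) = 1 := by
    intro u hu huv
    have huS : u ∉ S := by
      intro h
      exact (Finsupp.mem_support_iff.mp hu) (ha u h)
    rw [map_pow, hU.other u huS v hv huv.symm, one_pow]
  by_cases hva : v ∈ a.support
  · rw [Finset.prod_eq_single_of_mem v hva h1, map_pow, hU.self v hv, inv_pow, zpow_neg,
      zpow_natCast]
  · rw [Finset.prod_eq_one fun u hu => h1 u hu fun h => hva (h ▸ hu),
      Finsupp.notMem_support_iff.mp hva]
    simp

/-- sizes of `gen a` at the special places -/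
theorem spec_gen (hU : Unif S ϖ C) {a : Idl K} (ha : OffS S a) {u : Pl K} (hu : u ∈ Spl S) :
    |mt u * Real.log (av u (gen ϖ a))| ≤ C * len a := by
  classical
  unfold gen len
  rw [map_prod, Real.log_prod, Finset.mul_sum, Finset.mul_sum]
  · refine (Finset.abs_sum_le_sum_abs _ _).trans (Finset.sum_le_sum fun v hv => ?_)
    have hvS : v ∉ S := by
      intro h
      exact (Finsupp.mem_support_iff.mp hv) (ha v h)
    have h1 := hU.spec v hvS u hu
    rw [map_pow, Real.log_pow, mul_left_comm, abs_mul, Nat.abs_cast, mul_left_comm]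
    exact mul_le_mul_of_nonneg_left h1 (Nat.cast_nonneg _)
  · intro v _
    exact ((av u).pos (pow_ne_zero _ (hU.ne v))).ne'

end U

/-! ### special places -/

theorem mem_Spl_inl (S : Finset (Pr K)) (w : InfinitePlace K) : (Sum.inl w : Pl K) ∈ Spl S := by
  unfold Spl
  exact Finset.inl_mem_disjSum.mpr (Finset.mem_univ _)

theorem mem_Spl_inr (S : Finset (Pr K)) (v : Pr K) : (Sum.inr v : Pl K) ∈ Spl S ↔ v ∈ S := by
  unfold Spl
  exact Finset.inr_mem_disjSum

theorem sum_Spl (S : Finset (Pr K)) (g : Pl K → ℝ) :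
    ∑ v ∈ Spl S, g v = ∑ w : InfinitePlace K, g (Sum.inl w) + ∑ v ∈ S, g (Sum.inr v) := by
  unfold Spl
  rw [Finset.sum_disjSum]

@[simp] theorem av_inr (v : Pr K) : av (Sum.inr v : Pl K) = fv v := rfl

@[simp] theorem mt_inr (v : Pr K) : mt (Sum.inr v : Pl K) = 1 := rfl

@[simp] theorem av_inl (w : InfinitePlace K) (x : K) : av (Sum.inl w : Pl K) x = w x := rfl

@[simp] theorem mt_inl (w : InfinitePlace K) : mt (Sum.inl w : Pl K) = (w.mult : ℝ) := rfl

/-- the product formula with the places outside `S` collected in a finite set `s` -/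
theorem product_formula (S : Finset (Pr K)) {x : K} (hx : x ≠ 0) (s : Finset (Pr K))
    (hs : ∀ v, v ∉ S → v ∉ s → fv v x = 1) (hd : Disjoint S s) :
    ∑ v ∈ Spl S, mt v * Real.log (av v x) + ∑ v ∈ s, Real.log (fv v x) = 0 := by
  classical
  have h := log_product_formula (K := K) hx
  have h1 : ∑ᶠ v : HeightOneSpectrum (𝓞 K), Real.log (fv v x) =
      ∑ v ∈ S ∪ s, Real.log (fv v x) := by
    refine finsum_eq_sum_of_support_subset _ ?_
    intro v hv
    rw [Finset.coe_union]
    by_contra hcon
    simp only [Set.mem_union, Finset.mem_coe, not_or] at hcon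
    apply hv
    show Real.log (fv v x) = 0
    rw [hs v hcon.1 hcon.2, Real.log_one]
  rw [h1, Finset.sum_union hd] at h
  rw [sum_Spl]
  simp only [mt_inl, av_inl, mt_inr, av_inr, one_mul]
  linarith

/-- the height in terms of a finite set of places -/
theorem ht_eq (S : Finset (Pr K)) (x : K) (s : Finset (Pr K))
    (hs : ∀ v, v ∉ S → v ∉ s → fv v x ≤ 1) (hd : Disjoint S s) :
    ht x = ∑ v ∈ Spl S, mt v * Real.log (max (av v x) 1) + ∑ v ∈ s, Real.log (max (fv v x) 1) := by
  classical
  unfold ht hr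
  have h1 : ∑ᶠ v : HeightOneSpectrum (𝓞 K), Real.log (max (fv v (aff x).1) (fv v (aff x).2)) =
      ∑ v ∈ S ∪ s, Real.log (max (fv v x) 1) := by
    refine (finsum_congr fun v => ?_).trans (finsum_eq_sum_of_support_subset _ ?_)
    · show Real.log (max (fv v x) (fv v 1)) = _
      rw [map_one]
    · intro v hv
      rw [Finset.coe_union]
      by_contra hcon
      simp only [Set.mem_union, Finset.mem_coe, not_or] at hcon
      apply hv
      show Real.log (max (fv v x) 1) = 0
      rw [max_eq_right (hs v hcon.1 hcon.2), Real.log_one]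
  rw [h1, Finset.sum_union hd, sum_Spl]
  simp only [mt_inl, av_inl, mt_inr, av_inr, one_mul]
  have h2 : ∀ w : InfinitePlace K, max (w (aff x).1) (w (aff x).2) = max (w x) 1 := by
    intro w
    show max (w x) (w 1) = _
    rw [map_one]
  simp only [h2]
  ring

end Pool.Agent.W223.AK
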