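import Mathlib
import Pool.Agent.H16.LA.S8.W223.AK.Point

/-!
# From the affine count to the count of projective points
-/

set_option autoImplicit false
set_option linter.unusedSectionVars false

namespace Pool.Agent.W223.AK

open NumberField IsDedekindDomain Finset Pool.Agent.H691R3

variable {K : Type} [Field K] [NumberField K]

/-- `d` times the height of the point with coordinates `x` -/
noncomputable def H3 (x : Fin 3 → K) : ℝ :=
  ∑ w : InfinitePlace K, (w.mult : ℝ) * Real.log (max (w (x 0)) (max (w (x 1)) (w (x 2)))) +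
    ∑ᶠ v : HeightOneSpectrum (𝓞 K),
      Real.log (max (FinitePlace.mk v (x 0)) (max (FinitePlace.mk v (x 1)) (FinitePlace.mk v (x 2))))

/-- `d` times the radical -/
noncomputable def R3 (T : Set (HeightOneSpectrum (𝓞 K))) (x : Fin 3 → K) : ℝ :=
  ∑ᶠ (v : HeightOneSpectrum (𝓞 K)) (_ : v ∉ T ∧ ¬ (FinitePlace.mk v (x 0) = FinitePlace.mk v (x 1) ∧
    FinitePlace.mk v (x 1) = FinitePlace.mk v (x 2))), Real.log (Ideal.absNorm v.asIdeal : ℝ)

theorem max_fv_eq (v : Pr K) {x : Fin 3 → K} (h1 : x 1 ≠ 0) (hs : x 0 + x 1 + x 2 = 0) :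
    max (FinitePlace.mk v (x 0)) (max (FinitePlace.mk v (x 1)) (FinitePlace.mk v (x 2))) =
      fv v (x 1) * max (fv v (x 0 / x 1)) 1 := by
  have e0 : fv v (x 0) = fv v (x 1) * fv v (x 0 / x 1) := by
    rw [← map_mul, mul_div_cancel₀ _ h1]
  have e2 : fv v (x 2) ≤ max (fv v (x 0)) (fv v (x 1)) := by
    have : x 2 = -(x 0 + x 1) := by linear_combination hs
    rw [this, map_neg_eq_map]
    exact fv_na v _ _
  show max (fv v (x 0)) (max (fv v (x 1)) (fv v (x 2))) = _
  rw [← max_assoc, max_eq_left e2, e0, mul_max_of_nonneg _ _ ((fv v).nonneg _), mul_one]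

theorem max_arch (w : InfinitePlace K) {x : Fin 3 → K} (h1 : x 1 ≠ 0) (hs : x 0 + x 1 + x 2 = 0) :
    Real.log (w (x 1)) + Real.log (max (w (x 0 / x 1)) 1) ≤
      Real.log (max (w (x 0)) (max (w (x 1)) (w (x 2)))) ∧
    Real.log (max (w (x 0)) (max (w (x 1)) (w (x 2)))) ≤
      Real.log (w (x 1)) + Real.log (max (w (x 0 / x 1)) 1) + Real.log 2 := by
  have hw1 : 0 < w (x 1) := w.pos_iff.mpr h1
  have hm : (0 : ℝ) < max (w (x 0 / x 1)) 1 := lt_max_of_lt_right one_pos
  have e0 : w (x 0) = w (x 1) * w (x 0 / x 1) := by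
    rw [← map_mul, mul_div_cancel₀ _ h1]
  have e1 : w (x 1) * max (w (x 0 / x 1)) 1 = max (w (x 0)) (w (x 1)) := by
    rw [mul_max_of_nonneg _ _ hw1.le, mul_one, ← e0]
  have e2 : w (x 2) ≤ 2 * max (w (x 0)) (w (x 1)) := by
    have h6 : x 2 = -(x 0 + x 1) := by linear_combination hs
    have h7 : w (x 2) = w (x 0 + x 1) := by
      rw [h6]
      exact w.1.map_neg _
    rw [h7]
    have h2 := w.1.add_le (x 0) (x 1)
    have h3 := le_max_left (w (x 0)) (w (x 1))
    have h4 := le_max_right (w (x 0)) (w (x 1))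
    have h5 : w (x 0 + x 1) ≤ w (x 0) + w (x 1) := h2
    linarith
  rw [← Real.log_mul hw1.ne' hm.ne', e1, ← Real.log_mul (by rw [← e1]; positivity) (by norm_num)]
  have hp : 0 < max (w (x 0)) (w (x 1)) := by rw [← e1]; positivity
  constructor
  · refine Real.log_le_log hp ?_
    rw [← max_assoc]
    exact le_max_left _ _
  · refine Real.log_le_log ?_ ?_
    · rw [← max_assoc]
      exact lt_max_of_lt_left hp
    · rw [← max_assoc]
      refine max_le ?_ ?_
      · linarith
      · linarith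

theorem H3_bounds {x : Fin 3 → K} (h1 : x 1 ≠ 0) (hs : x 0 + x 1 + x 2 = 0) :
    ht (x 0 / x 1) ≤ H3 x ∧ H3 x ≤ ht (x 0 / x 1) + lossK K := by
  have hp := log_product_formula (K := K) h1
  set t : K := x 0 / x 1 with ht'
  have hfin : (Function.support fun v : HeightOneSpectrum (𝓞 K) =>
      Real.log (max (fv v t) 1)).Finite := by
    have := log_max_support_finite (K := K) (aff_ne_zero t)
    refine this.subset ?_
    intro v hv
    simp only [Function.mem_support] at hv ⊢
    intro h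
    apply hv
    have h2 : max (fv v (aff t).1) (fv v (aff t).2) = max (fv v t) 1 := by
      show max (fv v t) (fv v 1) = _
      rw [map_one]
    rw [h2] at h
    exact h
  have hF : ∑ᶠ v : HeightOneSpectrum (𝓞 K), Real.log (max (FinitePlace.mk v (x 0))
      (max (FinitePlace.mk v (x 1)) (FinitePlace.mk v (x 2)))) =
      ∑ᶠ v : HeightOneSpectrum (𝓞 K), Real.log (fv v (x 1)) +
      ∑ᶠ v : HeightOneSpectrum (𝓞 K), Real.log (max (fv v t) 1) := by
    rw [← finsum_add_distrib (log_fv_support_finite h1) hfin]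
    refine finsum_congr fun v => ?_
    have hm : (0 : ℝ) < max (fv v t) 1 := lt_max_of_lt_right one_pos
    rw [max_fv_eq v h1 hs, Real.log_mul ((fv v).pos h1).ne' hm.ne']
  have hht : ht t = ∑ w : InfinitePlace K, (w.mult : ℝ) * Real.log (max (w t) 1) +
      ∑ᶠ v : HeightOneSpectrum (𝓞 K), Real.log (max (fv v t) 1) := by
    unfold ht hr
    congr 1
    · refine Finset.sum_congr rfl fun w _ => ?_
      have : max (w (aff t).1) (w (aff t).2) = max (w t) 1 := by
        show max (w t) (w 1) = _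
        rw [map_one]
      rw [this]
    · refine finsum_congr fun v => ?_
      have h2 : max (fv v (aff t).1) (fv v (aff t).2) = max (fv v t) 1 := by
        show max (fv v t) (fv v 1) = _
        rw [map_one]
      rw [h2]
  unfold H3
  rw [hF, hht]
  have hA : ∑ w : InfinitePlace K, (w.mult : ℝ) * Real.log (w (x 1)) +
      ∑ w : InfinitePlace K, (w.mult : ℝ) * Real.log (max (w t) 1) ≤
      ∑ w : InfinitePlace K, (w.mult : ℝ) * Real.log (max (w (x 0)) (max (w (x 1)) (w (x 2)))) := by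
    rw [← Finset.sum_add_distrib]
    refine Finset.sum_le_sum fun w _ => ?_
    have h2 := (max_arch w h1 hs).1
    have h3 : (0 : ℝ) ≤ w.mult := Nat.cast_nonneg _
    rw [← mul_add]
    exact mul_le_mul_of_nonneg_left h2 h3
  have hB : ∑ w : InfinitePlace K, (w.mult : ℝ) * Real.log (max (w (x 0)) (max (w (x 1)) (w (x 2))))
      ≤ ∑ w : InfinitePlace K, (w.mult : ℝ) * Real.log (w (x 1)) +
      ∑ w : InfinitePlace K, (w.mult : ℝ) * Real.log (max (w t) 1) + lossK K := by
    unfold lossK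
    rw [← Finset.sum_add_distrib, ← Finset.sum_add_distrib]
    refine Finset.sum_le_sum fun w _ => ?_
    have h2 := (max_arch w h1 hs).2
    have h3 : (0 : ℝ) ≤ w.mult := Nat.cast_nonneg _
    rw [← mul_add, ← mul_add]
    exact mul_le_mul_of_nonneg_left h2 h3
  constructor
  · linarith
  · linarith

theorem R3_eq {T : Set (Pr K)} {T' : Finset (Pr K)} (hT : ∀ v, v ∈ T' ↔ v ∈ T) {x : Fin 3 → K}
    (h1 : x 1 ≠ 0) (hs : x 0 + x 1 + x 2 = 0) {P : Fin 3 → Idl K}
    (hP : IsP T' (x 0 / x 1) P) : R3 T x = rl (P 0) + rl (P 1) + rl (P 2) := by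
  classical
  set t : K := x 0 / x 1 with ht'
  have hsupp : ∀ v, (v ∉ T ∧ ¬ (FinitePlace.mk v (x 0) = FinitePlace.mk v (x 1) ∧
      FinitePlace.mk v (x 1) = FinitePlace.mk v (x 2))) ↔
      v ∈ ((P 0).support ∪ (P 1).support) ∪ (P 2).support := by
    intro v
    have e0 : fv v (x 0) = fv v (x 1) * fv v t := by
      rw [← map_mul, ht', mul_div_cancel₀ _ h1]
    have e2 : fv v (x 2) = fv v (x 1) * fv v (t + 1) := by
      have h3 : x 2 = -(x 1 * (t + 1)) := by
        rw [ht']
        field_simp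
        linear_combination hs
      rw [h3, map_neg_eq_map, map_mul]
    have hpos := (fv v).pos h1
    have hiff : (FinitePlace.mk v (x 0) = FinitePlace.mk v (x 1) ∧
      FinitePlace.mk v (x 1) = FinitePlace.mk v (x 2)) ↔ (fv v t = 1 ∧ fv v (t + 1) = 1) := by
      show (fv v (x 0) = fv v (x 1) ∧ fv v (x 1) = fv v (x 2)) ↔ _
      rw [e0, e2]
      constructor
      · rintro ⟨a, b⟩
        exact ⟨mul_left_cancel₀ hpos.ne' (by rw [a, mul_one]),
          mul_left_cancel₀ hpos.ne' (by rw [← b, mul_one])⟩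
      · rintro ⟨a, b⟩
        rw [a, b, mul_one]
        exact ⟨rfl, rfl⟩
    rw [hiff]
    simp only [Finset.mem_union, Finsupp.mem_support_iff]
    constructor
    · rintro ⟨hv, hne⟩
      have hvT : v ∉ T' := fun h => hv ((hT v).mp h)
      by_contra hcon
      push Not at hcon
      obtain ⟨⟨a, b⟩, c⟩ := hcon
      have g0 := hP.val 0 v hvT
      have g1 := hP.val 1 v hvT
      have g2 := hP.val 2 v hvT
      rw [a] at g0
      rw [b] at g1
      rw [c] at g2
      simp only [L_zero, L_one, L_two, Nat.cast_zero, neg_zero, zpow_zero, mul_one, map_one] at g0 g1 g2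
      apply hne
      rw [g0, g2, ← g1]
      exact ⟨rfl, rfl⟩
    · intro h
      have hvS : v ∉ T' := by
        intro hv
        rcases h with (h | h) | h
        · exact h (hP.off 0 v hv)
        · exact h (hP.off 1 v hv)
        · exact h (hP.off 2 v hv)
      refine ⟨fun hv => hvS ((hT v).mpr hv), ?_⟩
      rintro ⟨a, b⟩
      have key : ∀ l : Fin 3, P l v ≠ 0 → fv v (L l t) = 1 → False := by
        intro l hl h3
        have h4 := fv_lt_of_ne hP hl
        rw [h3, a, max_self] at h4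
        exact lt_irrefl _ h4
      rcases h with (h | h) | h
      · exact key 0 h a
      · exact key 1 h (map_one _)
      · exact key 2 h b
  have hd01 : Disjoint (P 0).support (P 1).support := by
    rw [Finset.disjoint_left]
    intro v h3 h4
    rw [Finsupp.mem_support_iff] at h3 h4
    rcases hP.cop (by decide : (0 : Fin 3) ≠ 1) v with h | h
    · exact h3 h
    · exact h4 h
  have hd2 : Disjoint ((P 0).support ∪ (P 1).support) (P 2).support := by
    rw [Finset.disjoint_left]
    intro v h3 h4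
    rw [Finset.mem_union, Finsupp.mem_support_iff, Finsupp.mem_support_iff] at h3
    rw [Finsupp.mem_support_iff] at h4
    rcases h3 with h3 | h3
    · rcases hP.cop (by decide : (0 : Fin 3) ≠ 2) v with h | h
      · exact h3 h
      · exact h4 h
    · rcases hP.cop (by decide : (1 : Fin 3) ≠ 2) v with h | h
      · exact h3 h
      · exact h4 h
  unfold R3 rl
  rw [← Finset.sum_union hd01, ← Finset.sum_union hd2]
  have h3 : ∀ v : HeightOneSpectrum (𝓞 K), (∑ᶠ (_ : v ∉ T ∧ ¬ (FinitePlace.mk v (x 0) =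
      FinitePlace.mk v (x 1) ∧ FinitePlace.mk v (x 1) = FinitePlace.mk v (x 2))),
      Real.log (Ideal.absNorm v.asIdeal : ℝ)) =
      if v ∈ ((P 0).support ∪ (P 1).support) ∪ (P 2).support then Real.log (Nv v) else 0 := by
    intro v
    rw [finsum_eq_if]
    exact if_congr (hsupp v) rfl rfl
  rw [finsum_congr h3, finsum_eq_sum_of_support_subset
    (s := ((P 0).support ∪ (P 1).support) ∪ (P 2).support)]
  · refine Finset.sum_congr rfl fun v hv => ?_
    rw [if_pos hv]
  · intro v hv
    by_contra h4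
    apply hv
    show (if v ∈ ((P 0).support ∪ (P 1).support) ∪ (P 2).support then Real.log (Nv v) else 0) = 0
    exact if_neg (fun h => h4 (Finset.mem_coe.mpr h))

/-- the final form, for finite sets of coordinate vectors with distinct quotients -/
theorem final_count {e : ℝ} (hF : StmtFIN K e) (T : Set (Pr K)) (hT : T.Finite) (c₀ δ : ℝ)
    (hδ : 0 < δ) : ∃ D : ℝ, 0 < D ∧ ∀ (X : ℝ) (F : Finset (Fin 3 → K)), 0 ≤ X →
      (∀ x ∈ F, x 0 ≠ 0 ∧ x 1 ≠ 0 ∧ x 2 ≠ 0 ∧ x 0 + x 1 + x 2 = 0 ∧ H3 x ≤ X ∧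
        R3 T x ≤ H3 x + c₀) →
      (∀ x ∈ F, ∀ y ∈ F, x 0 / x 1 = y 0 / y 1 → x = y) →
      (F.card : ℝ) ≤ D * Real.exp ((e + δ) * X) := by
  classical
  set T' : Finset (Pr K) := hT.toFinset with hT'
  have hmem : ∀ v, v ∈ T' ↔ v ∈ T := fun v => Set.Finite.mem_toFinset _
  obtain ⟨D, hD, h⟩ := hF T' (lossK K + c₀) δ hδ
  refine ⟨D, hD, fun X F hX hF1 hF2 => ?_⟩
  have hcard : (F.image fun x => x 0 / x 1).card = F.card :=
    Finset.card_image_of_injOn fun x hx y hy hxy => hF2 x hx y hy hxy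
  rw [← hcard]
  refine h X _ hX ?_
  intro t ht
  obtain ⟨x, hx, rfl⟩ := Finset.mem_image.mp ht
  obtain ⟨h0, h1, h2, hs, hH, hR⟩ := hF1 x hx
  have hb := H3_bounds h1 hs
  have hPt : Pt (x 0 / x 1) := by
    refine ⟨div_ne_zero h0 h1, ?_⟩
    intro h3
    apply h2
    have h4 : x 0 / x 1 * x 1 = x 0 := div_mul_cancel₀ _ h1
    have h5 : x 0 / x 1 = -1 := by linear_combination h3
    rw [h5] at h4
    linear_combination hs + h4
  obtain ⟨P, hP⟩ := exists_isP T' hPt
  refine ⟨hPt, hb.1.trans hH, P, hP, ?_⟩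
  rw [← R3_eq hmem h1 hs hP]
  linarith [hb.2]

end Pool.Agent.W223.AK
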